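import Pool.Agent.Y60.Stm

/-!
# Elementary arithmetic (job T5 of `Pool.Agent.Y60.Stm`)
-/

namespace Pool.Agent.Y37.BR

open Finset

theorem counts (n001 n010 n011 n100 n101 n110 n111 n200 n201 n210 n211 : ℕ)
    (h00 : (n100 + n101 + n110 + n111) + 4 * (n200 + n201 + n210 + n211) = 5)
    (h11 : (n010 + n011 + n110 + n111 + n210 + n211) = 4)
    (h22 : (n001 + n011 + n101 + n111 + n201 + n211) = 4)
    (h01 : (n110 + n111) + 2 * (n210 + n211) = 3)
    (h02 : (n101 + n111) + 2 * (n201 + n211) = 3)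
    (h12 : (n011 + n111 + n211) = 3) :
    (n001 = 0 ∧ n010 = 0 ∧ n011 = 1 ∧ n100 = 1 ∧ n101 = 1 ∧ n110 = 1 ∧ n111 = 2 ∧ n200 = 0 ∧
      n201 = 0 ∧ n210 = 0 ∧ n211 = 0) ∨
    (n001 = 1 ∧ n010 = 1 ∧ n011 = 0 ∧ n100 = 2 ∧ n101 = 0 ∧ n110 = 0 ∧ n111 = 3 ∧ n200 = 0 ∧
      n201 = 0 ∧ n210 = 0 ∧ n211 = 0) ∨
    (n001 = 1 ∧ n010 = 1 ∧ n011 = 1 ∧ n100 = 0 ∧ n101 = 0 ∧ n110 = 0 ∧ n111 = 1 ∧ n200 = 0 ∧
      n201 = 0 ∧ n210 = 0 ∧ n211 = 1) := by
  obtain ⟨s, hs⟩ : ∃ s, s = n200 + n201 + n210 + n211 := ⟨_, rfl⟩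
  rw [← hs] at h00
  have h1 : s ≤ 1 := by omega
  interval_cases s
  · obtain ⟨rfl, rfl, rfl, rfl⟩ : n200 = 0 ∧ n201 = 0 ∧ n210 = 0 ∧ n211 = 0 := by
      refine ⟨?_, ?_, ?_, ?_⟩ <;> omega
    have e1 : n110 = 3 - n111 := by omega
    have e2 : n101 = 3 - n111 := by omega
    have e3 : n011 = 3 - n111 := by omega
    have h2 : n111 ≤ 3 := by omega
    subst e1 e2 e3
    interval_cases n111
    · omega
    · omega
    · left; refine ⟨?_, ?_, ?_, ?_, ?_, ?_, ?_, ?_, ?_, ?_, ?_⟩ <;> omega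
    · right; left; refine ⟨?_, ?_, ?_, ?_, ?_, ?_, ?_, ?_, ?_, ?_, ?_⟩ <;> omega
  · have h3 : n100 + n101 + n110 + n111 = 1 := by omega
    have h4 : n110 + n111 = 1 := by omega
    have h5 : n101 + n111 = 1 := by omega
    have h6 : n210 + n211 = 1 := by omega
    have h7 : n201 + n211 = 1 := by omega
    have h8 : n111 = 1 := by omega
    have h9 : n211 = 1 := by omega
    subst h8 h9
    right; right; refine ⟨?_, ?_, ?_, ?_, ?_, ?_, ?_, ?_, ?_, ?_, ?_⟩ <;> omega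

def S1 : List ℕ := [3, 8, 18, 28, 48, 63, 108]
def S2 : List ℕ := [1, 6, 16, 21, 36, 56, 126]
def S3 : List ℕ := [5, 10, 15, 20, 30, 35, 40, 45, 60, 70, 80, 90, 105, 120, 140]
def S4 : List ℕ := [4, 9, 14, 24, 64, 84]
def S5 : List ℕ := [2, 7, 12, 32, 42, 72, 112]
def S6 : List ℕ := [1, 6, 16, 21, 36, 56, 96, 126]

theorem memS1 : ∀ x < 142, x % 5 = 3 → x ∣ 3024 → x ∈ S1 := by decide +kernel
theorem memS2 : ∀ x < 142, x % 5 = 1 → x ∣ 1008 → x ∈ S2 := by decide +kernel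
theorem memS3 : ∀ x < 142, x % 5 = 0 → x ∣ 5040 → x ∈ S3 := by decide +kernel
theorem memS4 : ∀ x < 142, x % 5 = 4 → x ∣ 4032 → x ∈ S4 := by decide +kernel
theorem memS5 : ∀ x < 142, x % 5 = 2 → x ∣ 2016 → x ∈ S5 := by decide +kernel
theorem memS6 : ∀ x < 142, x % 5 = 1 → x ∣ 6048 → x ∈ S6 := by decide +kernel

theorem num1 : ∀ A ∈ S1, ∀ F ∈ S2, A + F ∈ S4 → ∀ D ∈ S3, ∀ E ∈ S3, D + E + 2 * A + F = 252 →
    2 * A ^ 2 + (A + F) ^ 2 + F ^ 2 + D ^ 2 + E ^ 2 ≤ 20160 →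
    (A, F, D, E) ∈ [(28, 36, 70, 90), (28, 36, 90, 70), (28, 36, 80, 80), (48, 16, 60, 80),
      (48, 16, 80, 60), (48, 16, 70, 70), (48, 36, 60, 60)] := by decide +kernel

theorem num2 : ∀ R ∈ S2, ∀ S ∈ S2, R + S ∈ S5 → ∀ T ∈ S3, ∀ U ∈ S3, ∀ W ∈ S3,
    R + S + T + U + W = 252 →
    2 * (R + S) ^ 2 + R ^ 2 + S ^ 2 + T ^ 2 + U ^ 2 + W ^ 2 ≤ 20160 →
    R + S < 56 ∧ 60 ≤ T ∧ 60 ≤ U ∧ 60 ≤ W := by decide +kernel

theorem num3 : ∀ p ∈ S6, ∀ u ∈ S5, u ≤ p → p - u ∈ S4 → ∀ q ∈ S3, 2 * p + q = 252 →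
    p ^ 2 + q ^ 2 + (p - u) ^ 2 + 2 * u ^ 2 ≤ 20160 → p = 96 ∧ q = 60 := by decide +kernel

theorem le_one_of_sums {ι : Type} (L : Finset ι) (f g : ι → ℕ) (hg : ∑ i ∈ L, g i ^ 2 = 4)
    (hfg : ∑ i ∈ L, f i * g i = 3) : ∀ i ∈ L, g i ≤ 1 := by
  classical
  intro i hi
  by_contra hcon
  have h1 : g i ^ 2 + ∑ j ∈ L.erase i, g j ^ 2 = 4 := by
    rw [Finset.add_sum_erase L (fun j => g j ^ 2) hi, hg]
  have h2 : f i * g i + ∑ j ∈ L.erase i, f j * g j = 3 := by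
    rw [Finset.add_sum_erase L (fun j => f j * g j) hi, hfg]
  have h3 : g i = 2 := by
    have h4 : 2 ≤ g i := by omega
    have h5 : g i ^ 2 ≤ 4 := by omega
    nlinarith
  rw [h3] at h1 h2
  have h6 : ∑ j ∈ L.erase i, g j ^ 2 = 0 := by omega
  have h7 : ∀ j ∈ L.erase i, g j = 0 := by
    intro j hj
    have h8 := (Finset.sum_eq_zero_iff.mp h6) j hj
    exact pow_eq_zero_iff (two_ne_zero) |>.mp h8
  have h9 : ∑ j ∈ L.erase i, f j * g j = 0 :=
    Finset.sum_eq_zero fun j hj => by rw [h7 j hj, mul_zero]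
  omega

theorem fin1 (A B C F D E sa sb sf sd se ta tb tf td te : ℕ)
    (w0 : 252 = F + B + A + (D + E)) (w1 : 252 = C + A + (D + E)) (w2 : 252 = C + B + (D + E))
    (ws : 56 = sf * F + sb * B + sa * A + (sd * D + se * E))
    (wt : 70 = tf * F + tb * B + ta * A + (td * D + te * E))
    (wn : C ^ 2 + F ^ 2 + B ^ 2 + A ^ 2 + (D ^ 2 + E ^ 2) ≤ 20160)
    (hA : A ∈ S1) (hC : C ∈ S4) (hF : F ∈ S2) (hD : D ∈ S3) (hE : E ∈ S3)
    (ba : sa + ta ≤ 1) (bb : sb + tb ≤ 1) (bf : sf + tf ≤ 1) (bd : sd + td ≤ 1)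
    (be : se + te ≤ 1) :
    A = 28 ∧ B = 28 ∧ C = 64 ∧ F = 36 ∧ ((D = 70 ∧ E = 90) ∨ (D = 90 ∧ E = 70)) := by
  have e1 : B = A := by omega
  have e2 : C = A + F := by omega
  subst e1 e2
  have h := num1 B hA F hF hC D hD E hE (by omega) (by omega)
  simp only [List.mem_cons, Prod.mk.injEq, List.not_mem_nil, or_false] at h
  rcases h with ⟨rfl, rfl, rfl, rfl⟩ | ⟨rfl, rfl, rfl, rfl⟩ | ⟨rfl, rfl, rfl, rfl⟩ |
    ⟨rfl, rfl, rfl, rfl⟩ | ⟨rfl, rfl, rfl, rfl⟩ | ⟨rfl, rfl, rfl, rfl⟩ | ⟨rfl, rfl, rfl, rfl⟩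
  · simp
  · simp
  all_goals exfalso; clear hA hC hF hD hE wn w0 w1 w2; omega

theorem fin2 (R S T U W P Q sr ss st su sw : ℕ)
    (w0 : 252 = R + S + (T + U + W)) (w1 : 252 = Q + (T + U + W)) (w2 : 252 = P + (T + U + W))
    (ws : 56 = sr * R + ss * S + (st * T + su * U + sw * W))
    (wn : P ^ 2 + Q ^ 2 + (R ^ 2 + S ^ 2) + (T ^ 2 + U ^ 2 + W ^ 2) ≤ 20160)
    (hR : R ∈ S2) (hS : S ∈ S2) (hP : P ∈ S5) (hT : T ∈ S3) (hU : U ∈ S3) (hW : W ∈ S3)
    (br : sr ≤ 1) (bs : ss ≤ 1) : False := by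
  have e1 : Q = P := by omega
  have e2 : P = R + S := by omega
  subst e1 e2
  obtain ⟨h1, h2, h3, h4⟩ := num2 R hR S hS hP T hT U hU W hW (by omega) (by omega)
  have k1 : sr * R ≤ R := by nlinarith
  have k2 : ss * S ≤ S := by nlinarith
  have k3 : st = 0 := by
    by_contra h
    have : T ≤ st * T := Nat.le_mul_of_pos_left T (by omega)
    omega
  have k4 : su = 0 := by
    by_contra h
    have : U ≤ su * U := Nat.le_mul_of_pos_left U (by omega)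
    omega
  have k5 : sw = 0 := by
    by_contra h
    have : W ≤ sw * W := Nat.le_mul_of_pos_left W (by omega)
    omega
  rw [k3, k4, k5] at ws
  omega

theorem fin3 (p q c u v sp sq : ℕ) (w0 : 252 = q + 2 * p) (w1 : 252 = v + c + q + p)
    (w2 : 252 = u + c + q + p) (ws : 56 = sq * q + sp * p)
    (wn : u ^ 2 + v ^ 2 + c ^ 2 + q ^ 2 + p ^ 2 ≤ 20160) (hp : p ∈ S6) (hq : q ∈ S3) (hc : c ∈ S4)
    (hu : u ∈ S5) : False := by
  have e1 : v = u := by omega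
  have e2 : p = c + u := by omega
  have e3 : p - u = c := by omega
  subst e1
  obtain ⟨h1, h2⟩ := num3 p hp v hu (by omega) (by rw [e3]; exact hc) q hq (by omega)
    (by rw [e3]; omega)
  subst h1 h2
  omega

theorem sum3 {ι : Type} [DecidableEq ι] {x y z : ι} (h1 : x ≠ y) (h2 : x ≠ z) (h3 : y ≠ z)
    (f : ι → ℕ) : ∑ i ∈ ({x, y, z} : Finset ι), f i = f x + f y + f z := by
  rw [Finset.sum_insert, Finset.sum_pair h3, add_assoc]
  simp [h1, h2]

theorem cover (x y z : ℕ) (hx : x ≤ 2) (hy : y ≤ 1) (hz : z ≤ 1) :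
    (x = 0 ∧ y = 0 ∧ z = 0) ∨ (x = 0 ∧ y = 0 ∧ z = 1) ∨ (x = 0 ∧ y = 1 ∧ z = 0) ∨
    (x = 0 ∧ y = 1 ∧ z = 1) ∨ (x = 1 ∧ y = 0 ∧ z = 0) ∨ (x = 1 ∧ y = 0 ∧ z = 1) ∨
    (x = 1 ∧ y = 1 ∧ z = 0) ∨ (x = 1 ∧ y = 1 ∧ z = 1) ∨ (x = 2 ∧ y = 0 ∧ z = 0) ∨
    (x = 2 ∧ y = 0 ∧ z = 1) ∨ (x = 2 ∧ y = 1 ∧ z = 0) ∨ (x = 2 ∧ y = 1 ∧ z = 1) := by
  interval_cases x <;> interval_cases y <;> interval_cases z <;> simp

theorem jobT5 : Pool.Agent.Y60.StT5 := by
  intro ι L n m0 m1 m2 s t hn h00 h11 h22 h01 h02 h12 k0 k1 k2 hs ht hst hmod hdvd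
  classical
  have b1 : ∀ i ∈ L, m1 i ≤ 1 := le_one_of_sums L m0 m1 h11 h01
  have b2 : ∀ i ∈ L, m2 i ≤ 1 := le_one_of_sums L m0 m2 h22 h02
  have b0 : ∀ i ∈ L, m0 i ≤ 2 := by
    intro i hi
    have h1 : m0 i ^ 2 ≤ 5 := by
      rw [← h00]; exact Finset.single_le_sum (f := fun i => m0 i ^ 2) (fun _ _ => Nat.zero_le _) hi
    nlinarith
  have bn : ∀ i ∈ L, n i < 142 := by
    intro i hi
    have h1 : n i ^ 2 ≤ 20160 := by
      rw [← hn]; exact Finset.single_le_sum (f := fun i => n i ^ 2) (fun _ _ => Nat.zero_le _) hi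
    nlinarith
  obtain ⟨Fb, hFb⟩ : ∃ Fb : ℕ → ℕ → ℕ → Finset ι, ∀ a b c, Fb a b c =
    L.filter (fun i => (m0 i, m1 i, m2 i) = (a, b, c)) := ⟨_, fun _ _ _ => rfl⟩
  have memF : ∀ {a b c i}, i ∈ Fb a b c ↔ i ∈ L ∧ m0 i = a ∧ m1 i = b ∧ m2 i = c := by
    intro a b c i
    rw [hFb, Finset.mem_filter, Prod.mk.injEq, Prod.mk.injEq]
  have split : ∀ G : ι → ℕ, ∑ i ∈ L, G i =
      (∑ i ∈ Fb 0 0 0, G i) + (∑ i ∈ Fb 0 0 1, G i) + (∑ i ∈ Fb 0 1 0, G i) +
      (∑ i ∈ Fb 0 1 1, G i) + (∑ i ∈ Fb 1 0 0, G i) + (∑ i ∈ Fb 1 0 1, G i) +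
      (∑ i ∈ Fb 1 1 0, G i) + (∑ i ∈ Fb 1 1 1, G i) + (∑ i ∈ Fb 2 0 0, G i) +
      (∑ i ∈ Fb 2 0 1, G i) + (∑ i ∈ Fb 2 1 0, G i) + (∑ i ∈ Fb 2 1 1, G i) := by
    intro G
    have h1 : ∀ i ∈ L, (m0 i, m1 i, m2 i) ∈ range 3 ×ˢ range 2 ×ˢ range 2 := by
      intro i hi
      rw [mem_product, mem_product, mem_range, mem_range, mem_range]
      have := b0 i hi
      have := b1 i hi
      have := b2 i hi
      refine ⟨?_, ?_, ?_⟩ <;> dsimp only <;> omega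
    rw [← Finset.sum_fiberwise_of_maps_to h1 G, Finset.sum_product]
    simp only [Finset.sum_product, Finset.sum_range_succ, Finset.sum_range_zero, ← hFb, zero_add]
    ring
  have e00 : ∀ a b c, ∑ i ∈ Fb a b c, m0 i ^ 2 = (Fb a b c).card * a ^ 2 := fun a b c => by
    rw [Finset.sum_congr rfl fun i hi => by rw [(memF.mp hi).2.1], sum_const, smul_eq_mul]
  have e11 : ∀ a b c, ∑ i ∈ Fb a b c, m1 i ^ 2 = (Fb a b c).card * b ^ 2 := fun a b c => by
    rw [Finset.sum_congr rfl fun i hi => by rw [(memF.mp hi).2.2.1], sum_const, smul_eq_mul]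
  have e22 : ∀ a b c, ∑ i ∈ Fb a b c, m2 i ^ 2 = (Fb a b c).card * c ^ 2 := fun a b c => by
    rw [Finset.sum_congr rfl fun i hi => by rw [(memF.mp hi).2.2.2], sum_const, smul_eq_mul]
  have e01 : ∀ a b c, ∑ i ∈ Fb a b c, m0 i * m1 i = (Fb a b c).card * (a * b) := fun a b c => by
    rw [Finset.sum_congr rfl fun i hi => by rw [(memF.mp hi).2.1, (memF.mp hi).2.2.1], sum_const,
      smul_eq_mul]
  have e02 : ∀ a b c, ∑ i ∈ Fb a b c, m0 i * m2 i = (Fb a b c).card * (a * c) := fun a b c => by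
    rw [Finset.sum_congr rfl fun i hi => by rw [(memF.mp hi).2.1, (memF.mp hi).2.2.2], sum_const,
      smul_eq_mul]
  have e12 : ∀ a b c, ∑ i ∈ Fb a b c, m1 i * m2 i = (Fb a b c).card * (b * c) := fun a b c => by
    rw [Finset.sum_congr rfl fun i hi => by rw [(memF.mp hi).2.2.1, (memF.mp hi).2.2.2], sum_const,
      smul_eq_mul]
  have f0 : ∀ a b c, ∑ i ∈ Fb a b c, m0 i * n i = a * ∑ i ∈ Fb a b c, n i := fun a b c => by
    rw [Finset.mul_sum]
    exact Finset.sum_congr rfl fun i hi => by rw [(memF.mp hi).2.1]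
  have f1 : ∀ a b c, ∑ i ∈ Fb a b c, m1 i * n i = b * ∑ i ∈ Fb a b c, n i := fun a b c => by
    rw [Finset.mul_sum]
    exact Finset.sum_congr rfl fun i hi => by rw [(memF.mp hi).2.2.1]
  have f2 : ∀ a b c, ∑ i ∈ Fb a b c, m2 i * n i = c * ∑ i ∈ Fb a b c, n i := fun a b c => by
    rw [Finset.mul_sum]
    exact Finset.sum_congr rfl fun i hi => by rw [(memF.mp hi).2.2.2]
  have fs : ∀ b c, ∑ i ∈ Fb 0 b c, s i * n i = 0 := fun b c => by
    refine Finset.sum_eq_zero fun i hi => ?_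
    have h1 := hst i (memF.mp hi).1
    rw [(memF.mp hi).2.1] at h1
    have h2 : s i = 0 := by omega
    rw [h2, zero_mul]
  have ft : ∀ b c, ∑ i ∈ Fb 0 b c, t i * n i = 0 := fun b c => by
    refine Finset.sum_eq_zero fun i hi => ?_
    have h1 := hst i (memF.mp hi).1
    rw [(memF.mp hi).2.1] at h1
    have h2 : t i = 0 := by omega
    rw [h2, zero_mul]
  have c00 := split (fun i => m0 i ^ 2)
  have c11 := split (fun i => m1 i ^ 2)
  have c22 := split (fun i => m2 i ^ 2)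
  have c01 := split (fun i => m0 i * m1 i)
  have c02 := split (fun i => m0 i * m2 i)
  have c12 := split (fun i => m1 i * m2 i)
  have w0 := split (fun i => m0 i * n i)
  have w1 := split (fun i => m1 i * n i)
  have w2 := split (fun i => m2 i * n i)
  have ws := split (fun i => s i * n i)
  have wt := split (fun i => t i * n i)
  have wn := split (fun i => n i ^ 2)
  simp only [h00, e00] at c00
  simp only [h11, e11] at c11
  simp only [h22, e22] at c22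
  simp only [h01, e01] at c01
  simp only [h02, e02] at c02
  simp only [h12, e12] at c12
  simp only [k0, f0, zero_mul, one_mul, zero_add] at w0
  simp only [k1, f1, zero_mul, one_mul, zero_add, add_zero] at w1
  simp only [k2, f2, zero_mul, one_mul, zero_add, add_zero] at w2
  simp only [hs, fs, zero_add] at ws
  simp only [ht, ft, zero_add] at wt
  simp only [hn] at wn
  norm_num at c00 c11 c22 c01 c02 c12
  have hN := counts (Fb 0 0 1).card (Fb 0 1 0).card (Fb 0 1 1).card (Fb 1 0 0).card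
    (Fb 1 0 1).card (Fb 1 1 0).card (Fb 1 1 1).card (Fb 2 0 0).card (Fb 2 0 1).card
    (Fb 2 1 0).card (Fb 2 1 1).card (by omega) (by omega) (by omega) (by omega) (by omega)
    (by omega)
  have hres : ∀ i ∈ L, ∀ r, (m0 i + 2 * m1 i + 2 * m2 i) = r → n i % 5 = r % 5 ∧ n i ∣ 1008 * r :=
    fun i hi r hr => ⟨hr ▸ hmod i hi, hr ▸ hdvd i hi⟩
  have hcov : ∀ i ∈ L, i ∈ Fb 0 0 0 ∨ i ∈ Fb 0 0 1 ∨ i ∈ Fb 0 1 0 ∨ i ∈ Fb 0 1 1 ∨ i ∈ Fb 1 0 0 ∨
      i ∈ Fb 1 0 1 ∨ i ∈ Fb 1 1 0 ∨ i ∈ Fb 1 1 1 ∨ i ∈ Fb 2 0 0 ∨ i ∈ Fb 2 0 1 ∨ i ∈ Fb 2 1 0 ∨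
      i ∈ Fb 2 1 1 := by
    intro i hi
    simp only [memF, hi, true_and]
    exact cover _ _ _ (b0 i hi) (b1 i hi) (b2 i hi)
  rcases hN with ⟨g001, g010, g011, g100, g101, g110, g111, g200, g201, g210, g211⟩ |
    ⟨g001, g010, g011, g100, g101, g110, g111, g200, g201, g210, g211⟩ |
    ⟨g001, g010, g011, g100, g101, g110, g111, g200, g201, g210, g211⟩
  · rw [Finset.card_eq_zero] at g001 g010 g200 g201 g210 g211
    obtain ⟨c, hc⟩ := Finset.card_eq_one.mp g011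
    obtain ⟨f, hf⟩ := Finset.card_eq_one.mp g100
    obtain ⟨b, hb⟩ := Finset.card_eq_one.mp g101
    obtain ⟨a, ha⟩ := Finset.card_eq_one.mp g110
    obtain ⟨d, e, hde, hd⟩ := Finset.card_eq_two.mp g111
    simp only [g001, g010, g200, g201, g210, g211, hc, hf, hb, ha, hd, Finset.sum_singleton,
      Finset.sum_empty, Finset.sum_pair hde, add_zero, mul_zero, zero_add] at w0 w1 w2 ws wt wn
    have pa := memF.mp (ha ▸ Finset.mem_singleton_self a)
    have pb := memF.mp (hb ▸ Finset.mem_singleton_self b)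
    have pc := memF.mp (hc ▸ Finset.mem_singleton_self c)
    have pf := memF.mp (hf ▸ Finset.mem_singleton_self f)
    have pd := memF.mp (hd ▸ Finset.mem_insert_self d {e})
    have pe := memF.mp (hd ▸ Finset.mem_insert_of_mem (Finset.mem_singleton_self e))
    have ra := hres a pa.1 3 (by omega)
    have rc := hres c pc.1 4 (by omega)
    have rf := hres f pf.1 1 (by omega)
    have rd := hres d pd.1 5 (by omega)
    have re := hres e pe.1 5 (by omega)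
    have sta := hst a pa.1
    have stb := hst b pb.1
    have stf := hst f pf.1
    have std := hst d pd.1
    have ste := hst e pe.1
    rw [pa.2.1] at sta
    rw [pb.2.1] at stb
    rw [pf.2.1] at stf
    rw [pd.2.1] at std
    rw [pe.2.1] at ste
    have hfin := fin1 (n a) (n b) (n c) (n f) (n d) (n e) (s a) (s b) (s f) (s d) (s e)
      (t a) (t b) (t f) (t d) (t e) w0 w1 w2 ws wt (by omega)
      (memS1 _ (bn a pa.1) ra.1 ra.2) (memS4 _ (bn c pc.1) rc.1 rc.2)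
      (memS2 _ (bn f pf.1) rf.1 rf.2) (memS3 _ (bn d pd.1) rd.1 rd.2)
      (memS3 _ (bn e pe.1) re.1 re.2) sta stb stf std ste
    obtain ⟨hna, hnb, hnc, hnf, hnde⟩ := hfin
    have nab : a ≠ b := by rintro rfl; omega
    have nac : a ≠ c := by rintro rfl; omega
    have nad : a ≠ d := by rintro rfl; omega
    have nae : a ≠ e := by rintro rfl; omega
    have naf : a ≠ f := by rintro rfl; omega
    have nbc : b ≠ c := by rintro rfl; omega
    have nbd : b ≠ d := by rintro rfl; omega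
    have nbe : b ≠ e := by rintro rfl; omega
    have nbf : b ≠ f := by rintro rfl; omega
    have ncd : c ≠ d := by rintro rfl; omega
    have nce : c ≠ e := by rintro rfl; omega
    have ncf : c ≠ f := by rintro rfl; omega
    have ndf : d ≠ f := by rintro rfl; omega
    have nef : e ≠ f := by rintro rfl; omega
    have hrest : ∀ i ∈ L, i ∉ [a, b, c, d, e, f] → m0 i = 0 ∧ m1 i = 0 ∧ m2 i = 0 := by
      intro i hi hni
      simp only [List.mem_cons, List.not_mem_nil, or_false, not_or] at hni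
      obtain ⟨i1, i2, i3, i4, i5, i6⟩ := hni
      have h := hcov i hi
      rw [g001, g010, g200, g201, g210, g211, hc, hf, hb, ha, hd] at h
      simp only [Finset.notMem_empty, Finset.mem_singleton, Finset.mem_insert, i1, i2, i3, i4, i5,
        i6, or_false, false_or] at h
      exact (memF.mp h).2
    rcases hnde with ⟨hnd, hne⟩ | ⟨hnd, hne⟩
    · refine ⟨a, b, c, d, e, f, ?_, ?_, ⟨hna, pa.2⟩, ⟨hnb, pb.2⟩, ⟨hnc, pc.2⟩, ⟨hnd, pd.2⟩,
        ⟨hne, pe.2⟩, ⟨hnf, pf.2⟩, hrest⟩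
      · simp [nab, nac, nad, nae, naf, nbc, nbd, nbe, nbf, ncd, nce, ncf, hde, ndf, nef]
      · simp [pa.1, pb.1, pc.1, pd.1, pe.1, pf.1]
    · refine ⟨a, b, c, e, d, f, ?_, ?_, ⟨hna, pa.2⟩, ⟨hnb, pb.2⟩, ⟨hnc, pc.2⟩, ⟨hne, pe.2⟩,
        ⟨hnd, pd.2⟩, ⟨hnf, pf.2⟩, fun i hi hni => hrest i hi fun h => hni ?_⟩
      · simp [nab, nac, nad, nae, naf, nbc, nbd, nbe, nbf, ncd, nce, ncf, hde.symm, ndf, nef]
      · simp [pa.1, pb.1, pc.1, pd.1, pe.1, pf.1]
      · simp only [List.mem_cons, List.not_mem_nil, or_false] at h ⊢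
        rcases h with h | h | h | h | h | h <;> simp [h]
  · exfalso
    rw [Finset.card_eq_zero] at g011 g101 g110 g200 g201 g210 g211
    obtain ⟨p, hp⟩ := Finset.card_eq_one.mp g001
    obtain ⟨q, hq⟩ := Finset.card_eq_one.mp g010
    obtain ⟨r, r', hrr, hr⟩ := Finset.card_eq_two.mp g100
    obtain ⟨x, y, z, hxy, hxz, hyz, hx⟩ := Finset.card_eq_three.mp g111
    simp only [g011, g101, g110, g200, g201, g210, g211, hp, hq, hr, hx, Finset.sum_singleton,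
      Finset.sum_empty, Finset.sum_pair hrr, sum3 hxy hxz hyz, add_zero, mul_zero,
      zero_add] at w0 w1 w2 ws wt wn
    have pp := memF.mp (hp ▸ Finset.mem_singleton_self p)
    have pr := memF.mp (hr ▸ Finset.mem_insert_self r {r'})
    have pr' := memF.mp (hr ▸ Finset.mem_insert_of_mem (Finset.mem_singleton_self r'))
    have px := memF.mp (hx ▸ Finset.mem_insert_self x {y, z})
    have py := memF.mp (hx ▸ Finset.mem_insert_of_mem (Finset.mem_insert_self y {z}))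
    have pz := memF.mp (hx ▸ Finset.mem_insert_of_mem (Finset.mem_insert_of_mem
      (Finset.mem_singleton_self z)))
    have rp := hres p pp.1 2 (by omega)
    have rr := hres r pr.1 1 (by omega)
    have rr' := hres r' pr'.1 1 (by omega)
    have rx := hres x px.1 5 (by omega)
    have ry := hres y py.1 5 (by omega)
    have rz := hres z pz.1 5 (by omega)
    have sr := hst r pr.1
    have sr' := hst r' pr'.1
    rw [pr.2.1] at sr
    rw [pr'.2.1] at sr'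
    exact fin2 (n r) (n r') (n x) (n y) (n z) (n p) (n q) (s r) (s r') (s x) (s y) (s z)
      (by omega) (by omega) (by omega) (by omega) (by omega)
      (memS2 _ (bn r pr.1) rr.1 rr.2) (memS2 _ (bn r' pr'.1) rr'.1 rr'.2)
      (memS5 _ (bn p pp.1) rp.1 rp.2) (memS3 _ (bn x px.1) rx.1 rx.2)
      (memS3 _ (bn y py.1) ry.1 ry.2) (memS3 _ (bn z pz.1) rz.1 rz.2) (by omega) (by omega)
  · exfalso
    rw [Finset.card_eq_zero] at g100 g101 g110 g200 g201 g210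
    obtain ⟨u, hu⟩ := Finset.card_eq_one.mp g001
    obtain ⟨v, hv⟩ := Finset.card_eq_one.mp g010
    obtain ⟨c, hc⟩ := Finset.card_eq_one.mp g011
    obtain ⟨q, hq⟩ := Finset.card_eq_one.mp g111
    obtain ⟨p, hp⟩ := Finset.card_eq_one.mp g211
    simp only [g100, g101, g110, g200, g201, g210, hu, hv, hc, hq, hp, Finset.sum_singleton,
      Finset.sum_empty, add_zero, mul_zero, zero_add] at w0 w1 w2 ws wt wn
    have pu := memF.mp (hu ▸ Finset.mem_singleton_self u)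
    have pc := memF.mp (hc ▸ Finset.mem_singleton_self c)
    have pq := memF.mp (hq ▸ Finset.mem_singleton_self q)
    have pp := memF.mp (hp ▸ Finset.mem_singleton_self p)
    have ru := hres u pu.1 2 (by omega)
    have rc := hres c pc.1 4 (by omega)
    have rq := hres q pq.1 5 (by omega)
    have rp := hres p pp.1 6 (by omega)
    exact fin3 (n p) (n q) (n c) (n u) (n v) (s p) (s q) (by omega) (by omega) (by omega)
      (by omega) (by omega) (memS6 _ (bn p pp.1) rp.1 rp.2) (memS3 _ (bn q pq.1) rq.1 rq.2)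
      (memS4 _ (bn c pc.1) rc.1 rc.2) (memS5 _ (bn u pu.1) ru.1 ru.2)

end Pool.Agent.Y37.BR
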