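import Pool.Agent.Y60.Stm

/-!
# Linear independence of the traces of pairwise non-isomorphic irreducible representations
over an algebraically closed field of any characteristic (job TR of `Pool.Agent.Y60.Stm`)
-/

namespace Pool.Agent.Y37.BR

open scoped MonoidAlgebra

section Abstract

variable {k : Type} [Field k] [IsAlgClosed k] {A : Type} [Ring A] [Algebra k A]
  {ι : Type} [Fintype ι] {W : ι → Type} [∀ i, AddCommGroup (W i)] [∀ i, Module k (W i)]
  [∀ i, Module A (W i)] [∀ i, IsScalarTower k A (W i)] [∀ i, FiniteDimensional k (W i)]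

/-- endomorphisms of a multiplicity free module are diagonal -/
theorem end_diag [∀ i, IsSimpleModule A (W i)]
    (hne : ∀ i j, i ≠ j → IsEmpty (W i ≃ₗ[A] W j)) (φ : Module.End A (∀ i, W i)) (i : ι) :
    ∃ c : k, ∀ v : ∀ i, W i, (φ v) i = c • v i := by
  classical
  have h1 : ∀ j, j ≠ i → ∀ w : W j, (φ (Pi.single j w)) i = 0 := by
    intro j hj w
    have h2 := LinearMap.bijective_or_eq_zero
      ((LinearMap.proj i ∘ₗ φ) ∘ₗ LinearMap.single A W j : W j →ₗ[A] W i)
    rcases h2 with h2 | h2
    · exact ((hne j i hj).false (LinearEquiv.ofBijective _ h2)).elim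
    · exact DFunLike.congr_fun h2 w
  obtain ⟨c, hc⟩ := (IsSimpleModule.algebraMap_end_bijective_of_isAlgClosed (A := A) (V := W i) k).2
    ((LinearMap.proj i ∘ₗ φ) ∘ₗ LinearMap.single A W i : W i →ₗ[A] W i)
  refine ⟨c, fun v => ?_⟩
  have h3 : v = ∑ j, Pi.single j (v j) := (Finset.univ_sum_single v).symm
  have h4 : (φ v) i = ∑ j, (φ (Pi.single j (v j))) i := by
    conv_lhs => rw [h3]
    rw [map_sum, Finset.sum_apply]
  rw [h4, Finset.sum_eq_single i]
  · have h5 := DFunLike.congr_fun hc (v i)
    simp only [LinearMap.comp_apply, LinearMap.proj_apply, LinearMap.single_apply] at h5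
    rw [← h5]
    rfl
  · intro j _ hj
    exact h1 j hj _
  · intro h
    exact absurd (Finset.mem_univ i) h

theorem exists_act [∀ i, IsSimpleModule A (W i)]
    (hne : ∀ i j, i ≠ j → IsEmpty (W i ≃ₗ[A] W j)) (i : ι) (e : W i →ₗ[k] W i) :
    ∃ r : A, (∀ v : W i, r • v = e v) ∧ ∀ j, j ≠ i → ∀ v : W j, r • v = 0 := by
  classical
  have hsc : ∀ (a : k) (r : A) (j : ι) (v : W j), r • (a • v) = a • (r • v) := by
    intro a r j v
    rw [← IsScalarTower.algebraMap_smul A a v, ← IsScalarTower.algebraMap_smul A a (r • v),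
      smul_smul, smul_smul, Algebra.commutes]
  let f : Module.End (Module.End A (∀ i, W i)) (∀ i, W i) :=
    { toFun := fun v => Pi.single i (e (v i))
      map_add' := fun v w => by rw [Pi.add_apply, map_add, Pi.single_add]
      map_smul' := fun φ v => by
        funext j
        obtain ⟨c, hc⟩ := end_diag (k := k) hne φ j
        rw [RingHom.id_apply, Module.End.smul_def, Module.End.smul_def, hc]
        by_cases hj : j = i
        · subst hj
          rw [Pi.single_eq_same, Pi.single_eq_same, hc, map_smul]
        · rw [Pi.single_eq_of_ne hj, Pi.single_eq_of_ne hj, smul_zero] }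
  obtain ⟨s, hs⟩ := (Module.Finite.fg_top : (⊤ : Submodule k (∀ i, W i)).FG)
  obtain ⟨r, hr⟩ := jacobson_density (R := A) f s
  have key : ∀ v : ∀ i, W i, Pi.single i (e (v i)) = r • v := by
    intro v
    have hv : v ∈ Submodule.span k (s : Set (∀ i, W i)) := by rw [hs]; trivial
    induction hv using Submodule.span_induction with
    | mem x hx => exact hr x hx
    | zero => rw [Pi.zero_apply, map_zero, Pi.single_zero, smul_zero]
    | add x y _ _ hx hy => rw [Pi.add_apply, map_add, Pi.single_add, hx, hy, smul_add]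
    | smul a x _ hx =>
      rw [Pi.smul_apply, map_smul]
      have h1 : (Pi.single i (a • e (x i)) : ∀ i, W i) = a • Pi.single i (e (x i)) :=
        Pi.single_smul (f := W) i a (e (x i))
      rw [h1, hx]
      funext j
      rw [Pi.smul_apply, Pi.smul_apply, Pi.smul_apply, Pi.smul_apply, hsc]
  refine ⟨r, fun v => ?_, fun j hj v => ?_⟩
  · have h1 := congrFun (key (Pi.single i v)) i
    rw [Pi.single_eq_same, Pi.smul_apply, Pi.single_eq_same] at h1
    exact h1.symm
  · have h1 := congrFun (key (Pi.single j v)) j
    rw [Pi.single_eq_of_ne hj, Pi.smul_apply, Pi.single_eq_same] at h1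
    exact h1.symm

end Abstract

theorem job : Pool.Agent.Y60.StTR := by
  intro k _ _ G _ _ ι _ V _ _ _ ρ hirr hne c hc i
  classical
  have : ∀ i, IsSimpleModule k[G] (ρ i).asModule := fun i =>
    (Representation.irreducible_iff_isSimpleModule_asModule (ρ i)).mp (hirr i)
  have : ∀ i, FiniteDimensional k (ρ i).asModule := fun i =>
    inferInstanceAs (Module.Finite k (ρ i).asModule)
  have hne' : ∀ i j, i ≠ j → IsEmpty ((ρ i).asModule ≃ₗ[k[G]] (ρ j).asModule) := by
    intro i j hij
    refine ⟨fun f => ?_⟩
    have hbij : Function.Bijective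
        ((Representation.IntertwiningMap.equivLinearMapAsModule (ρ i) (ρ j)).symm f.toLinearMap) :=
      by
        have h1 : ⇑((Representation.IntertwiningMap.equivLinearMapAsModule (ρ i) (ρ j)).symm
          f.toLinearMap) = ⇑f := rfl
        rw [h1]
        exact f.bijective
    exact (hne i j hij).false (Representation.IntertwiningMap.ofBijective _ hbij)
  -- linear extension
  have hlin : ∀ r : k[G], ∑ j, c j * LinearMap.trace k (V j) ((ρ j).asAlgebraHom r) = 0 := by
    intro r
    induction r using MonoidAlgebra.induction_linear with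
    | zero => simp
    | add x y hx hy =>
      simp only [map_add, mul_add, Finset.sum_add_distrib, hx, hy, add_zero]
    | single g a =>
      have h1 : ∀ j, c j * LinearMap.trace k (V j) ((ρ j).asAlgebraHom (MonoidAlgebra.single g a)) =
          a * (c j * LinearMap.trace k (V j) (ρ j g)) := by
        intro j
        rw [Representation.asAlgebraHom_single, map_smul, smul_eq_mul]
        ring
      rw [Finset.sum_congr rfl fun j _ => h1 j, ← Finset.mul_sum, hc g, mul_zero]
  -- a functional and a vector
  have : Nontrivial (ρ i).asModule := IsSimpleModule.nontrivial k[G] (ρ i).asModule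
  have : Nontrivial (V i) := inferInstanceAs (Nontrivial (ρ i).asModule)
  obtain ⟨v, hv⟩ := exists_ne (0 : V i)
  obtain ⟨φ, hφ⟩ := Module.Projective.exists_dual_eq_one k hv
  obtain ⟨r, hr1, hr2⟩ := exists_act (k := k) (A := k[G]) (W := fun i => (ρ i).asModule) hne' i
    (φ.smulRight v : V i →ₗ[k] V i)
  have h1 : (ρ i).asAlgebraHom r = φ.smulRight v := LinearMap.ext fun w => hr1 w
  have h2 : ∀ j, j ≠ i → (ρ j).asAlgebraHom r = 0 := fun j hj => LinearMap.ext fun w => hr2 j hj w
  have h3 := hlin r
  rw [Finset.sum_eq_single i, h1, LinearMap.trace_smulRight, hφ, mul_one] at h3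
  · exact h3
  · intro j _ hj
    rw [h2 j hj, map_zero, mul_zero]
  · intro h
    exact absurd (Finset.mem_univ i) h

end Pool.Agent.Y37.BR
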